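import Pool.Agent.H121.FL.Iface
import Pool.Agent.H168.Y987.Op

/-! FL-FM: exponential decay of the fractional moments (`S_fm` from `S_eqn`, `S_off`, `S_on`, `S_it`). -/

set_option autoImplicit false

open scoped BigOperators InnerProductSpace Topology ENNReal
open Filter MeasureTheory

namespace Pool.Agent.H328.FL

open Pool.Agent.Y662.TR (LL Cf Mw dv hu clp)
open Pool.Agent.TH369.AN (Rz)
open Pool.Agent.TH369.MU (SpM ep zk)
open Pool.Agent.H987.Z (Rs Gr)
open Pool.Agent.H987.Y (Lt Ker Op kf)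
open Pool.Agent.H121.Z987 (HH wt Q HH_rs enorm_rpow Gr_meas1)
open Pool.Agent.H304.Z987 (Gr_le)
open Pool.Agent.H121.FL

variable {d : ℕ}

/-! ### balls -/

theorem nm_comm (a b : Lt d) : nm (a - b) = nm (b - a) := by
  unfold nm
  refine Finset.sum_congr rfl fun i _ => ?_
  rw [Pi.sub_apply, Pi.sub_apply]
  omega

theorem nm_tri (a b c : Lt d) : nm (a - c) ≤ nm (a - b) + nm (b - c) := by
  unfold nm
  rw [← Finset.sum_add_distrib]
  refine Finset.sum_le_sum fun i _ => ?_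
  rw [Pi.sub_apply, Pi.sub_apply, Pi.sub_apply]
  omega

theorem nm_self (a : Lt d) : nm (a - a) = 0 := by
  unfold nm
  simp

/-- the box of radius `R` -/
noncomputable def bl (R : ℕ) (a : Lt d) : Finset (Lt d) :=
  Fintype.piFinset fun i => Finset.Icc (a i - R) (a i + R)

theorem bl_card (R : ℕ) (a : Lt d) : (bl R a).card = nb d R := by
  unfold bl nb
  rw [Fintype.card_piFinset]
  have h : ∀ i : Fin d, (Finset.Icc (a i - (R : ℤ)) (a i + R)).card = 2 * R + 1 := by
    intro i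
    rw [Int.card_Icc]
    omega
  rw [Finset.prod_congr rfl fun i _ => h i, Finset.prod_const, Finset.card_univ, Fintype.card_fin]

theorem mem_bl {R : ℕ} {a b : Lt d} (h : nm (a - b) ≤ R) : b ∈ bl R a := by
  unfold bl
  rw [Fintype.mem_piFinset]
  intro i
  rw [Finset.mem_Icc]
  have h1 : ((a - b) i).natAbs ≤ nm (a - b) := by
    unfold nm
    exact Finset.single_le_sum (f := fun i => ((a - b) i).natAbs) (fun _ _ => Nat.zero_le _)
      (Finset.mem_univ i)
  rw [Pi.sub_apply] at h1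
  omega

theorem cnt (R : ℕ) (a : Lt d) (c : ℝ≥0∞) :
    ∑' b : Lt d, (if nm (a - b) ≤ R then c else 0) ≤ (nb d R : ℝ≥0∞) * c := by
  rw [tsum_eq_sum (s := bl R a)]
  · calc ∑ b ∈ bl R a, (if nm (a - b) ≤ R then c else 0) ≤ ∑ _b ∈ bl R a, c := by
          refine Finset.sum_le_sum fun b _ => ?_
          split_ifs
          · exact le_rfl
          · exact bot_le
      _ = _ := by rw [Finset.sum_const, bl_card, nsmul_eq_mul]
  · intro b hb
    rw [if_neg]
    intro h
    exact hb (mem_bl h)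

/-- sums over balls -/
noncomputable def SS (R : ℕ) (f : Lt d → ℝ≥0∞) (a : Lt d) : ℝ≥0∞ :=
  ∑' b, if nm (a - b) ≤ R then f b else 0

theorem SS_mono {R R' : ℕ} (h : R ≤ R') {f g : Lt d → ℝ≥0∞} (hf : ∀ b, f b ≤ g b) (a : Lt d) :
    SS R f a ≤ SS R' g a := by
  unfold SS
  refine ENNReal.tsum_le_tsum fun b => ?_
  by_cases h1 : nm (a - b) ≤ R
  · rw [if_pos h1, if_pos (h1.trans h)]
    exact hf b
  · rw [if_neg h1]
    exact bot_le

theorem SS_shift {m n k : ℕ} (h : m + n ≤ k) (f : Lt d → ℝ≥0∞) (a a' : Lt d) (h1 : nm (a - a') ≤ m) :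
    SS n f a' ≤ SS k f a := by
  unfold SS
  refine ENNReal.tsum_le_tsum fun b => ?_
  by_cases h2 : nm (a' - b) ≤ n
  · rw [if_pos h2, if_pos]
    have := nm_tri a a' b
    omega
  · rw [if_neg h2]
    exact bot_le

/-! ### the coefficients -/

section coef

variable {R : ℕ} {t φ : Lt d → Lt d → ℝ} {E : Lt d → ℝ} {g : ℝ}

theorem phi_le (hF : FB R t φ E g) (a x : Lt d) : |φ a x| ≤ 1 := by
  have h1 := hF.on a a
  rw [if_pos rfl] at h1
  have h2 : φ a x * φ a x ≤ 1 := by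
    refine le_hasSum h1 x fun y _ => ?_
    exact mul_self_nonneg _
  rw [← abs_mul_abs_self] at h2
  by_contra hcon
  push Not at hcon
  nlinarith

theorem cf_eq (hF : FB R t φ E g) (T : LL (Lt d) →L[ℂ] LL (Lt d)) (lam : ℝ) (ω : Lt d → ℝ) (z : ℂ)
    (y a : Lt d) : cf φ T lam ω z y a =
      ∑ x ∈ bl R a, ((φ a x : ℝ) : ℂ) * Gr (HH T lam ω) z x y := by
  unfold cf
  refine tsum_eq_sum fun x hx => ?_
  by_cases h : φ a x = 0
  · rw [h]
    simp
  · exact absurd (mem_bl (hF.rg a x h)) hx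

theorem enorm_phi (hF : FB R t φ E g) (a x : Lt d) : ‖((φ a x : ℝ) : ℂ)‖ₑ ≤ 1 := by
  rw [← ofReal_norm, Complex.norm_real, Real.norm_eq_abs]
  rw [ENNReal.ofReal_le_one]
  exact phi_le hF a x

theorem rpow_sum_le {ι : Type} (S : Finset ι) (f : ι → ℝ≥0∞) (s : ℝ) (hs : 0 < s) (hs1 : s ≤ 1) :
    (∑ i ∈ S, f i) ^ s ≤ ∑ i ∈ S, f i ^ s := by
  classical
  induction S using Finset.induction_on with
  | empty => simp [hs]
  | insert a S ha ih =>
    rw [Finset.sum_insert ha, Finset.sum_insert ha]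
    exact (ENNReal.rpow_add_le_add_rpow _ _ hs.le hs1).trans (add_le_add le_rfl ih)

theorem cf_pow_le (hF : FB R t φ E g) (T : LL (Lt d) →L[ℂ] LL (Lt d)) (lam s : ℝ) (hs : 0 < s)
    (hs1 : s ≤ 1) (ω : Lt d → ℝ) (z : ℂ) (y a : Lt d) : ‖cf φ T lam ω z y a‖ₑ ^ s ≤
      ∑ x ∈ bl R a, ‖Gr (HH T lam ω) z x y‖ₑ ^ s := by
  rw [cf_eq hF]
  calc ‖∑ x ∈ bl R a, ((φ a x : ℝ) : ℂ) * Gr (HH T lam ω) z x y‖ₑ ^ s ≤
      (∑ x ∈ bl R a, ‖Gr (HH T lam ω) z x y‖ₑ) ^ s := by
        refine ENNReal.rpow_le_rpow ?_ hs.le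
        refine (enorm_sum_le _ _).trans (Finset.sum_le_sum fun x _ => ?_)
        rw [enorm_mul]
        calc ‖((φ a x : ℝ) : ℂ)‖ₑ * ‖Gr (HH T lam ω) z x y‖ₑ ≤ 1 * ‖Gr (HH T lam ω) z x y‖ₑ :=
              mul_le_mul' (enorm_phi hF a x) le_rfl
          _ = _ := one_mul _
    _ ≤ _ := rpow_sum_le _ _ s hs hs1

theorem fa_le (hF : FB R t φ E g) (T : LL (Lt d) →L[ℂ] LL (Lt d)) (hT : Rs T) (lam s : ℝ) (hs : 0 < s)
    (hs1 : s ≤ 1) (μ : Measure ℝ) [IsProbabilityMeasure μ] (z : ℂ) (hz : 0 < z.im) (y a : Lt d) :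
    fa φ T lam s μ z y a ≤ (nb d R : ℝ≥0∞) * ENNReal.ofReal ((1 / z.im) ^ s) := by
  unfold fa
  calc ∫⁻ ω, ‖cf φ T lam ω z y a‖ₑ ^ s ∂(Measure.infinitePi fun _ : Lt d => μ) ≤
      ∫⁻ _, (nb d R : ℝ≥0∞) * ENNReal.ofReal ((1 / z.im) ^ s)
        ∂(Measure.infinitePi fun _ : Lt d => μ) := by
        refine lintegral_mono fun ω => ?_
        refine (cf_pow_le hF T lam s hs hs1 ω z y a).trans ?_
        calc ∑ x ∈ bl R a, ‖Gr (HH T lam ω) z x y‖ₑ ^ s ≤
            ∑ _x ∈ bl R a, ENNReal.ofReal ((1 / z.im) ^ s) := by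
              refine Finset.sum_le_sum fun x _ => ?_
              rw [enorm_rpow _ s hs.le]
              apply ENNReal.ofReal_le_ofReal
              exact Real.rpow_le_rpow (norm_nonneg _) (Gr_le _ (HH_rs T hT lam ω) z x y hz) hs.le
          _ = _ := by rw [Finset.sum_const, bl_card, nsmul_eq_mul]
    _ = _ := by rw [lintegral_const, measure_univ, mul_one]

theorem cf_meas (hF : FB R t φ E g) (T : LL (Lt d) →L[ℂ] LL (Lt d)) (hT : Rs T) (lam : ℝ) (z : ℂ)
    (hz : z.im ≠ 0) (y a : Lt d) : Measurable fun ω : Lt d → ℝ => cf φ T lam ω z y a := by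
  have h : (fun ω : Lt d → ℝ => cf φ T lam ω z y a) = fun ω =>
      ∑ x ∈ bl R a, ((φ a x : ℝ) : ℂ) * Gr (HH T lam ω) z x y := by
    funext ω
    exact cf_eq hF T lam ω z y a
  rw [h]
  exact Finset.measurable_sum _ fun x _ => (Gr_meas1 T hT lam z x y hz).const_mul _

theorem gr_eq (hF : FB R t φ E g) (T : LL (Lt d) →L[ℂ] LL (Lt d)) (lam : ℝ) (ω : Lt d → ℝ) (z : ℂ)
    (x y : Lt d) : Gr (HH T lam ω) z x y = ∑ a ∈ bl R x, ((φ a x : ℝ) : ℂ) * cf φ T lam ω z y a := by
  classical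
  have hz : ∀ a x' : Lt d, a ∉ bl R x → φ a x * φ a x' = 0 := by
    intro a x' ha
    by_cases h : φ a x = 0
    · rw [h, zero_mul]
    · refine absurd (mem_bl ?_) ha
      rw [nm_comm]
      exact hF.rg a x h
  have hcp : ∀ x' : Lt d, ∑ a ∈ bl R x, φ a x * φ a x' = if x = x' then 1 else 0 := by
    intro x'
    exact (hasSum_sum_of_ne_finset_zero fun a ha => hz a x' ha).unique (hF.cp x x')
  have h1 : ∀ a ∈ bl R x, ((φ a x : ℝ) : ℂ) * cf φ T lam ω z y a =
      ∑ x' ∈ bl (2 * R) x, ((φ a x * φ a x' : ℝ) : ℂ) * Gr (HH T lam ω) z x' y := by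
    intro a _
    by_cases h : φ a x = 0
    · rw [h]
      simp
    · have h2 : cf φ T lam ω z y a =
          ∑ x' ∈ bl (2 * R) x, ((φ a x' : ℝ) : ℂ) * Gr (HH T lam ω) z x' y := by
        unfold cf
        refine tsum_eq_sum fun x' hx' => ?_
        by_cases h3 : φ a x' = 0
        · rw [h3]
          simp
        · refine absurd (mem_bl ?_) hx'
          have h4 := hF.rg a x h
          have h5 := hF.rg a x' h3
          have h6 := nm_tri x a x'
          rw [nm_comm] at h4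
          omega
      rw [h2, Finset.mul_sum]
      refine Finset.sum_congr rfl fun x' _ => ?_
      push_cast
      ring
  rw [Finset.sum_congr rfl h1, Finset.sum_comm]
  have h2 : ∀ x' ∈ bl (2 * R) x, ∑ a ∈ bl R x, ((φ a x * φ a x' : ℝ) : ℂ) * Gr (HH T lam ω) z x' y =
      if x = x' then Gr (HH T lam ω) z x' y else 0 := by
    intro x' _
    rw [← Finset.sum_mul, ← Complex.ofReal_sum, hcp x']
    split_ifs <;> simp
  rw [Finset.sum_congr rfl h2, Finset.sum_ite_eq, if_pos]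
  refine mem_bl ?_
  rw [nm_self]
  exact Nat.zero_le _

theorem gr_pow_le (hF : FB R t φ E g) (T : LL (Lt d) →L[ℂ] LL (Lt d)) (hT : Rs T) (lam s : ℝ)
    (hs : 0 < s) (hs1 : s ≤ 1) (μ : Measure ℝ) [IsProbabilityMeasure μ] (z : ℂ) (hz : 0 < z.im)
    (x y : Lt d) : ∫⁻ ω, ‖Gr (HH T lam ω) z x y‖ₑ ^ s ∂(Measure.infinitePi fun _ : Lt d => μ) ≤
      ∑ a ∈ bl R x, (if nm (a - x) ≤ R then fa φ T lam s μ z y a else 0) := by
  have h1 : ∀ ω : Lt d → ℝ, ‖Gr (HH T lam ω) z x y‖ₑ ^ s ≤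
      ∑ a ∈ bl R x, (if nm (a - x) ≤ R then ‖cf φ T lam ω z y a‖ₑ ^ s else 0) := by
    intro ω
    rw [gr_eq hF T lam ω z x y]
    have h2 : ‖∑ a ∈ bl R x, ((φ a x : ℝ) : ℂ) * cf φ T lam ω z y a‖ₑ ≤
        ∑ a ∈ bl R x, (if nm (a - x) ≤ R then ‖cf φ T lam ω z y a‖ₑ else 0) := by
      refine (enorm_sum_le _ _).trans (Finset.sum_le_sum fun a _ => ?_)
      rw [enorm_mul]
      by_cases h : nm (a - x) ≤ R
      · rw [if_pos h]
        calc ‖((φ a x : ℝ) : ℂ)‖ₑ * ‖cf φ T lam ω z y a‖ₑ ≤ 1 * ‖cf φ T lam ω z y a‖ₑ :=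
              mul_le_mul' (enorm_phi hF a x) le_rfl
          _ = _ := one_mul _
      · have h3 : φ a x = 0 := by
          by_contra hcon
          exact h (hF.rg a x hcon)
        rw [if_neg h, h3]
        simp
    refine (ENNReal.rpow_le_rpow h2 hs.le).trans ((rpow_sum_le _ _ s hs hs1).trans ?_)
    refine Finset.sum_le_sum fun a _ => ?_
    split_ifs
    · exact le_rfl
    · rw [ENNReal.zero_rpow_of_pos hs]
  refine (lintegral_mono h1).trans ?_
  rw [lintegral_finsetSum]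
  · refine Finset.sum_le_sum fun a _ => ?_
    split_ifs
    · exact le_rfl
    · simp
  · intro a _
    split_ifs
    · exact ((cf_meas hF T hT lam z hz.ne' y a).enorm).pow_const s
    · exact measurable_const

end coef

/-! ### the parameters -/

theorem par (s g c nR nR' N : ℝ) (hs : 0 < s) (hg : 0 < g) (hc : 0 < c) (hR : 1 ≤ nR)
    (hR' : 1 ≤ nR') (hN : 1 ≤ N) : ∃ lam0 κ : ℝ, 0 < lam0 ∧ 0 < κ ∧ ∀ lam : ℝ, 0 < lam →
      lam ≤ lam0 →
      (2 / g) ^ s * (lam ^ s + (κ * lam * nR ^ 2) ^ s) ≤ 1 / (2 * nR') ∧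
      lam ^ s * (2 / g) ^ s * (lam ^ s + (κ * lam * nR ^ 2) ^ s) * N + (κ * lam * nR ^ 2) ^ s ≤
        c * lam ^ s * (1 / (2 * nR')) := by
  obtain ⟨p, hp⟩ : ∃ p : ℝ, p = (2 / g) ^ s := ⟨_, rfl⟩
  have hp0 : 0 < p := by rw [hp]; positivity
  obtain ⟨q, hq⟩ : ∃ q : ℝ, q = min 1 (c / (4 * nR')) := ⟨_, rfl⟩
  have hq0 : 0 < q := by rw [hq]; exact lt_min one_pos (by positivity)
  have hq1 : q ≤ 1 := by rw [hq]; exact min_le_left _ _
  have hq2 : q ≤ c / (4 * nR') := by rw [hq]; exact min_le_right _ _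
  obtain ⟨l, hl⟩ : ∃ l : ℝ, l = min (1 / (4 * p * nR')) (c / (8 * p * N * nR')) := ⟨_, rfl⟩
  have hl0 : 0 < l := by rw [hl]; exact lt_min (by positivity) (by positivity)
  have hl1 : l ≤ 1 / (4 * p * nR') := by rw [hl]; exact min_le_left _ _
  have hl2 : l ≤ c / (8 * p * N * nR') := by rw [hl]; exact min_le_right _ _
  refine ⟨l ^ (1 / s), q ^ (1 / s) / nR ^ 2, by positivity, by positivity, ?_⟩
  intro lam hlam hle
  obtain ⟨v, hv⟩ : ∃ v : ℝ, v = lam ^ s := ⟨_, rfl⟩
  have hv0 : 0 < v := by rw [hv]; positivity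
  have hvl : v ≤ l := by
    rw [hv]
    calc lam ^ s ≤ (l ^ (1 / s)) ^ s := Real.rpow_le_rpow hlam.le hle hs.le
      _ = l := by
        rw [← Real.rpow_mul hl0.le, one_div_mul_cancel hs.ne', Real.rpow_one]
  have hκ : (q ^ (1 / s) / nR ^ 2 * lam * nR ^ 2) ^ s = q * v := by
    have h1 : q ^ (1 / s) / nR ^ 2 * lam * nR ^ 2 = q ^ (1 / s) * lam := by
      field_simp
    rw [h1, Real.mul_rpow (by positivity) hlam.le, ← Real.rpow_mul hq0.le,
      one_div_mul_cancel hs.ne', Real.rpow_one, hv]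
  rw [hκ, ← hp, ← hv]
  have e1 : p * v ≤ 1 / (4 * nR') := by
    calc p * v ≤ p * (1 / (4 * p * nR')) := mul_le_mul_of_nonneg_left (hvl.trans hl1) hp0.le
      _ = 1 / (4 * nR') := by field_simp
  have e2 : p * N * v ≤ c / (8 * nR') := by
    calc p * N * v ≤ p * N * (c / (8 * p * N * nR')) :=
          mul_le_mul_of_nonneg_left (hvl.trans hl2) (by positivity)
      _ = c / (8 * nR') := by field_simp
  have e3 : q * v ≤ v := by nlinarith
  constructor
  · calc p * (v + q * v) ≤ p * (v + v) := by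
          apply mul_le_mul_of_nonneg_left _ hp0.le
          linarith
      _ = 2 * (p * v) := by ring
      _ ≤ 2 * (1 / (4 * nR')) := by linarith
      _ = 1 / (2 * nR') := by field_simp; norm_num
  · calc v * p * (v + q * v) * N + q * v ≤ v * p * (v + v) * N + c / (4 * nR') * v := by
          have h1 : v * p * (v + q * v) * N ≤ v * p * (v + v) * N := by
            apply mul_le_mul_of_nonneg_right _ (by positivity)
            apply mul_le_mul_of_nonneg_left _ (by positivity)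
            linarith
          have h2 : q * v ≤ c / (4 * nR') * v := mul_le_mul_of_nonneg_right hq2 hv0.le
          linarith
      _ = v * (2 * (p * N * v) + c / (4 * nR')) := by ring
      _ ≤ v * (2 * (c / (8 * nR')) + c / (4 * nR')) := by
          apply mul_le_mul_of_nonneg_left _ hv0.le
          linarith
      _ = c * v * (1 / (2 * nR')) := by field_simp; norm_num

theorem one_le_nb (d R : ℕ) : (1 : ℝ) ≤ (nb d R : ℝ) := by
  unfold nb
  have h : 1 ≤ (2 * R + 1) ^ d := Nat.one_le_pow _ _ (by omega)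
  exact_mod_cast h

theorem inv_nb (d R : ℕ) : (2 * (nb d R : ℝ≥0∞))⁻¹ = ENNReal.ofReal (1 / (2 * (nb d R : ℝ))) := by
  have h := one_le_nb d R
  rw [one_div, ENNReal.ofReal_inv_of_pos (by linarith), ENNReal.ofReal_mul (by norm_num),
    ENNReal.ofReal_natCast]
  norm_num

theorem fm (h1 : S_eqn) (h2 : S_off) (h3 : S_on) (h4 : S_it) : S_fm := by
  intro d R r g s D hg hs hs1 hD
  obtain ⟨c, hc, hon⟩ := h3 d R r s D hs hs1 hD
  obtain ⟨R', hR'⟩ : ∃ R' : ℕ, R' = 4 * (R + r) + 1 := ⟨_, rfl⟩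
  obtain ⟨lam0, κ, hl0, hκ, hpar⟩ := par s g c (nb d R) (nb d R') (nb d (2 * R)) hs hg hc
    (one_le_nb d R) (one_le_nb d R') (one_le_nb d (2 * R))
  have hR'0 : 0 < R' := by omega
  have hR'r : (0 : ℝ) < R' := by exact_mod_cast hR'0
  have hlog : 0 < Real.log 2 := Real.log_pos (by norm_num)
  refine ⟨lam0, κ, Real.log 2 / R', hl0, hκ, by positivity, ?_⟩
  intro h t φ E hF hk μ _ lam hμ hlam hle B hB
  have hb : 0 ≤ κ * lam := by positivity
  obtain ⟨⟨h', hk'⟩, -⟩ := h1 d R r g h (κ * lam) t φ B E hF hk hb hB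
  have hT : Rs (Op (tB t B)) := ((Pool.Agent.H168.Y987.op _ _ _ hk').2).2.1
  obtain ⟨hp1, hp2⟩ := hpar lam hlam hle
  obtain ⟨T, hTdef⟩ : ∃ T, T = Op (tB t B) := ⟨_, rfl⟩
  obtain ⟨P, hP⟩ : ∃ P, P = ENNReal.ofReal ((2 / g) ^ s) := ⟨_, rfl⟩
  obtain ⟨L, hL⟩ : ∃ L, L = ENNReal.ofReal (lam ^ s) := ⟨_, rfl⟩
  obtain ⟨Lq, hLq⟩ : ∃ Lq, Lq = ENNReal.ofReal (lam ^ s + (κ * lam * (nb d R : ℝ) ^ 2) ^ s) :=
    ⟨_, rfl⟩
  obtain ⟨Qs, hQs⟩ : ∃ Qs, Qs = ENNReal.ofReal ((κ * lam * (nb d R : ℝ) ^ 2) ^ s) := ⟨_, rfl⟩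
  obtain ⟨K, hK⟩ : ∃ K, K = ENNReal.ofReal (c * lam ^ s) := ⟨_, rfl⟩
  obtain ⟨N, hN⟩ : ∃ N : ℝ≥0∞, N = (nb d (2 * R) : ℝ≥0∞) := ⟨_, rfl⟩
  obtain ⟨V, hV⟩ : ∃ V : ℝ≥0∞, V = (2 * (nb d R' : ℝ≥0∞))⁻¹ := ⟨_, rfl⟩
  have hcl : 0 < c * lam ^ s := by positivity
  have hK0 : K ≠ 0 := by rw [hK]; exact (ENNReal.ofReal_pos.2 hcl).ne'
  have hKt : K ≠ ∞ := by rw [hK]; exact ENNReal.ofReal_ne_top
  have hPL : P * Lq ≤ V := by
    rw [hP, hLq, hV, inv_nb, ← ENNReal.ofReal_mul (by positivity)]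
    exact ENNReal.ofReal_le_ofReal hp1
  have hon2 : L * (N * (P * Lq)) + Qs ≤ K * V := by
    have e1 : L * (N * (P * Lq)) + Qs = ENNReal.ofReal (lam ^ s * (2 / g) ^ s *
        (lam ^ s + (κ * lam * (nb d R : ℝ) ^ 2) ^ s) * (nb d (2 * R) : ℝ) +
        (κ * lam * (nb d R : ℝ) ^ 2) ^ s) := by
      rw [ENNReal.ofReal_add (by positivity) (by positivity), hQs, hL, hN, hP, hLq,
        ENNReal.ofReal_mul (by positivity), ENNReal.ofReal_mul (by positivity),
        ENNReal.ofReal_mul (by positivity), ENNReal.ofReal_natCast]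
      ring
    rw [e1, hK, hV, inv_nb, ← ENNReal.ofReal_mul (by positivity)]
    exact ENNReal.ofReal_le_ofReal hp2
  obtain ⟨A, hA⟩ : ∃ A, A = P + K⁻¹ * (1 + L * (N * P)) := ⟨_, rfl⟩
  have hPt : P ≠ ∞ := by rw [hP]; exact ENNReal.ofReal_ne_top
  have hLt : L ≠ ∞ := by rw [hL]; exact ENNReal.ofReal_ne_top
  have hNt : N ≠ ∞ := by rw [hN]; exact ENNReal.natCast_ne_top _
  have hAt : A ≠ ∞ := by
    rw [hA]
    refine ENNReal.add_ne_top.2 ⟨hPt, ENNReal.mul_ne_top (ENNReal.inv_ne_top.2 hK0) ?_⟩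
    exact ENNReal.add_ne_top.2 ⟨ENNReal.one_ne_top, ENNReal.mul_ne_top hLt
      (ENNReal.mul_ne_top hNt hPt)⟩
  -- the decay of the moments of the coefficients
  have hdec : ∀ (y : Lt d) (z : ℂ), 0 < z.im → ∀ a, fa φ T lam s μ z y a ≤
      4 * A * ENNReal.ofReal (Real.exp (-(Real.log 2 / R') * nm (a - y))) := by
    intro y z hz
    refine h4 d R' y (fa φ T lam s μ z y) ((nb d R : ℝ≥0∞) * ENNReal.ofReal ((1 / z.im) ^ s)) A
      hR'0 (ENNReal.mul_ne_top (ENNReal.natCast_ne_top _) ENNReal.ofReal_ne_top) ?_ hAt ?_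
    · intro a
      rw [hTdef]
      exact fa_le hF _ hT lam s hs hs1.le μ z hz y a
    · intro a
      obtain ⟨f, hf⟩ : ∃ f, f = fa φ T lam s μ z y := ⟨_, rfl⟩
      rw [← hf, ← hV]
      have hoff : ∀ a, g / 2 ≤ |E a - z.re| → f a ≤
          P * ((if nm (a - y) ≤ R then 1 else 0) + Lq * SS (2 * R + r) f a) := by
        intro a ha
        rw [hf, hP, hLq, hTdef]
        exact h2 d R r g h s (κ * lam) t φ B E hg hs hs1 hF hk hb hB μ lam hlam y a z hz ha
      change f a ≤ (if nm (a - y) ≤ R' then A else 0) + V * SS R' f a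
      obtain ⟨F, hFd⟩ : ∃ F, F = SS R' f a := ⟨_, rfl⟩
      obtain ⟨I', hI'⟩ : ∃ I' : ℝ≥0∞, I' = if nm (a - y) ≤ R' then 1 else 0 := ⟨_, rfl⟩
      have hAI : (if nm (a - y) ≤ R' then A else 0) = A * I' := by
        rw [hI']
        split_ifs <;> simp
      rw [hAI, ← hFd]
      have hI : (if nm (a - y) ≤ R then (1 : ℝ≥0∞) else 0) ≤ I' := by
        rw [hI']
        by_cases h5 : nm (a - y) ≤ R
        · rw [if_pos h5, if_pos (by omega)]
        · rw [if_neg h5]
          exact bot_le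
      have hSF : SS (2 * R + r) f a ≤ F := by
        rw [hFd]
        exact SS_mono (by omega) (fun _ => le_rfl) a
      by_cases ha : g / 2 ≤ |E a - z.re|
      · refine (hoff a ha).trans ?_
        calc P * ((if nm (a - y) ≤ R then 1 else 0) + Lq * SS (2 * R + r) f a) ≤
            P * (I' + Lq * F) := by gcongr
          _ = P * I' + P * Lq * F := by ring
          _ ≤ A * I' + V * F := by
              gcongr
              rw [hA]
              exact le_self_add
      · have h6 := hon g h (κ * lam) t φ B E hg hF hk hb hB μ lam hμ hlam y a z hz (not_le.1 ha)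
        rw [← hTdef, ← hf, ← hK, ← hL, ← hQs] at h6
        have h7 : (∑' a', if nm (a - a') ≤ 2 * R ∧ g / 2 ≤ |E a' - z.re| then f a' else 0) ≤
            N * (P * (I' + Lq * F)) := by
          rw [hN]
          refine le_trans (ENNReal.tsum_le_tsum fun a' => ?_) (cnt (2 * R) a (P * (I' + Lq * F)))
          by_cases h8 : nm (a - a') ≤ 2 * R
          · rw [if_pos h8]
            by_cases h9 : g / 2 ≤ |E a' - z.re|
            · rw [if_pos ⟨h8, h9⟩]
              refine (hoff a' h9).trans ?_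
              have h10 : (if nm (a' - y) ≤ R then (1 : ℝ≥0∞) else 0) ≤ I' := by
                rw [hI']
                by_cases h5 : nm (a' - y) ≤ R
                · have h11 := nm_tri a a' y
                  rw [if_pos h5, if_pos (by omega)]
                · rw [if_neg h5]
                  exact bot_le
              have h12 : SS (2 * R + r) f a' ≤ F := by
                rw [hFd]
                exact SS_shift (m := 2 * R) (by omega) f a a' h8
              gcongr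
            · rw [if_neg fun h => h9 h.2]
              exact bot_le
          · rw [if_neg fun h => h8 h.1, if_neg h8]
        have h8 : K * f a ≤ (1 + L * (N * P)) * I' + K * V * F := by
          calc K * f a ≤ I' + L * (N * (P * (I' + Lq * F))) + Qs * F := by
                refine h6.trans ?_
                refine add_le_add (add_le_add hI (mul_le_mul' le_rfl h7)) (mul_le_mul' le_rfl hSF)
            _ = (1 + L * (N * P)) * I' + (L * (N * (P * Lq)) + Qs) * F := by ring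
            _ ≤ _ := by gcongr
        calc f a = K⁻¹ * (K * f a) := by
              rw [← mul_assoc, ENNReal.inv_mul_cancel hK0 hKt, one_mul]
          _ ≤ K⁻¹ * ((1 + L * (N * P)) * I' + K * V * F) := by gcongr
          _ = K⁻¹ * (1 + L * (N * P)) * I' + K⁻¹ * K * (V * F) := by ring
          _ = K⁻¹ * (1 + L * (N * P)) * I' + V * F := by
              rw [ENNReal.inv_mul_cancel hK0 hKt, one_mul]
          _ ≤ A * I' + V * F := by
              gcongr
              rw [hA]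
              exact le_add_self
  -- the Green function
  refine ⟨(nb d R : ℝ) * (4 * A.toReal * Real.exp (Real.log 2 / R' * R)), by positivity, ?_⟩
  intro x y z hz
  rw [← hTdef]
  refine (gr_pow_le hF T (hTdef ▸ hT) lam s hs hs1.le μ z hz x y).trans ?_
  have hterm : ∀ a ∈ bl R x, (if nm (a - x) ≤ R then fa φ T lam s μ z y a else 0) ≤
      ENNReal.ofReal (4 * A.toReal * Real.exp (Real.log 2 / R' * R) *
        Real.exp (-(Real.log 2 / R') * nm (x - y))) := by
    intro a _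
    split_ifs with h5
    · refine (hdec y z hz a).trans ?_
      have e1 : 4 * A * ENNReal.ofReal (Real.exp (-(Real.log 2 / R') * nm (a - y))) =
          ENNReal.ofReal (4 * A.toReal * Real.exp (-(Real.log 2 / R') * nm (a - y))) := by
        rw [ENNReal.ofReal_mul (by positivity), ENNReal.ofReal_mul (by norm_num),
          ENNReal.ofReal_toReal hAt]
        norm_num
      rw [e1]
      apply ENNReal.ofReal_le_ofReal
      rw [mul_assoc (4 * A.toReal)]
      apply mul_le_mul_of_nonneg_left _ (by positivity)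
      rw [← Real.exp_add]
      apply Real.exp_le_exp.2
      have h6 := nm_tri x a y
      rw [nm_comm x a] at h6
      have h7 : (nm (x - y) : ℝ) ≤ R + nm (a - y) := by
        have : nm (x - y) ≤ R + nm (a - y) := by omega
        exact_mod_cast this
      have h8 : 0 < Real.log 2 / R' := by positivity
      nlinarith
    · exact bot_le
  refine (Finset.sum_le_sum hterm).trans ?_
  rw [Finset.sum_const, bl_card, nsmul_eq_mul, ← ENNReal.ofReal_natCast,
    ← ENNReal.ofReal_mul (by positivity)]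
  apply ENNReal.ofReal_le_ofReal
  apply le_of_eq
  ring

end Pool.Agent.H328.FL
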